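import Pool.Agent.Q47.CF.Br

/-!
# The relative nef cone conjecture for klt Calabi–Yau pairs on flag bundles over torus quotients

Let `X = V / Γ` be a projective quotient of a complex torus of any dimension by any finite group
(reflections are allowed, so that `K_X` need not be trivial), let `X → Z = W / Γ'` be a fibration, let
`c_i`, `i < q`, be any line bundles on `X`, and let `Y → X` be the bundle of the flags of any fixed type
in the fibres of the vector bundle `⊕ c_i` (for example a bundle of Grassmannians, a projective bundle
or the bundle of complete flags). Let `Δ = ∑ δ_l B_l` be any effective divisor with real coefficients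
on `Y` such that `K_Y + Δ` is numerically trivial over `Z` and such that for one fibre `Y_v` of
`Y → X` the pair `(Y_v, Δ_v)` is klt (this holds if `(Y, Δ)` is klt). In general the `B_l` are arbitrary
hypersurfaces, neither invariant under a torus nor pullbacks.

The theorem says that the cone `A^e(Y/Z)` of the nef and effective classes has a rational polyhedral
fundamental domain for the action of `Aut(Y/Z, Δ)`, and for the action of each subgroup of finite
index.

The proof. (a) Let `F_l(v, g)` be the equation of `B_l`, a polynomial in the entries of the matrix `g`
with holomorphic coefficients which is semi-invariant under the parabolic group of the type of the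
flags. The row content of a monomial in the entries of `g` is the vector of its degrees in the rows.
Since one fibre is klt, the charts of the flag variety at the flags of the permutation matrices show
that in the space of the weights with the sum `κ q` the center `(κ, ..., κ)` is an interior point of the
convex hull of the points `∑ δ_l α_l`, where `α_l` runs through the row contents of the monomials of
`F_l`. The coefficient of each monomial is a section of a line bundle on `X`, so that
its Chern form is semidefinite; `K_Y + Δ ≡ 0` and the convexity of the set of row contents show that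
these forms, and those of all `c_i ⊗ c_k^{-1}`, vanish in all directions of `E` which are parallel to
the mirrors of the reflections in `Γ`; and the differences of the row contents generate a subgroup of
finite index in the lattice of the weights of sum zero, so that the factors of the line bundles
`c_i ⊗ c_k^{-1}` on the lattice vectors in these directions are roots of unity, because the sections
are invariant by Liouville's theorem.
(b) Reduction theory (Voronoi's theory for an order in a real algebra with positive involution) covers
the ample classes of `X/Z` by the translates of a cone spanned by finitely many nef integral classes,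
under units which are congruent to `1`. Such a unit extends to an affine automorphism `f` of `V` which
normalises `Γ` and moves all points in directions parallel to all mirrors; by (a) there are functions
`a_i` such that `(v, g) ↦ (f v, (a_i(v) g_{ij})_{ij})` is an automorphism of the pair `(Y, Δ)` over `Z`.
(c) The Plücker coordinates embed `Y` in the product of the projective bundles of the exterior powers
of `⊕ c_i`. The weights of a monomial of a section are sums of weights of Plücker coordinates (a
theorem of Rado), which shows that a class of `Y` is effective if and only if the corresponding class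
on the product is; it is nef if and only if on the product it is nonnegative on the charts which
contain the flags of permutation matrices. The automorphisms in (b) fix the classes of the Plücker
coordinates. As in the case of toric bundles the classes with these properties, whose component in
`N^1(X/Z)` lies in a rational polyhedral cone, form a rational polyhedral cone, because by (a) the
conditions can be tested on finitely many vectors, one for each reflection. Finally a Dirichlet domain
is a fundamental domain.

`IsSemiInvariant`, `IsSection`, `ev`, `Low` and `chart` are defined in `Pool.Agent.Q47.FL.Defs`;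
`FlagBundle`, `Bdry`, `IsLogCanonical`, `Bdry.IsKltAt`, `Bdry.IsFixedBy`, `NY`, `cl`, `pb`, `D`, `intY`,
`effY`, `wt`, `nefY`, `IsAutY`, `IsPullbackY`, `anti`, `IsCY` and `grp` in `Pool.Agent.Q47.CF.St`;
`IsTQ`, `IsFib`, `Over`, `hull`, `chernCl` and `PresLatt` in `Pool.Agent.Q47.CY.St`; `LineBundle` in
`Pool.Agent.W594.SYZ.Defs2`; `IsChernForm` and `IsPositiveForm` in `Pool.Agent.W594.SYZ.TQDefs`;
`IsRamification` and `IsLogPluricanonical` in `Pool.Agent.TH735.AQ.MirDefs`; `AffGrp`, `IsClass` and
`Normalizes` in `Pool.Agent.Y167.Defs`; `LinGrp`, `Preserves`, `IsFundDomain`, `N1`, `form` and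
`nefCone` in `Pool.Agent.Y167.Stm`; `cone` in `Pool.Agent.Y167.ConeDef`.
-/

set_option autoImplicit false

namespace Pool.Agent.Results.MP_20d318_ag.FlagBundlePairs

open Pool.Agent.W594.SYZ2 Pool.Agent.TH735.AQ
open Pool.Agent.Y167 (AffGrp cone rel_of_emb)
open Pool.Agent.Y167.CC (LinGrp Preserves IsFundDomain)
open Q47.CP (IsTQ IsFib isTQ_iff isFib_iff PresLatt)
open Q47.CF

/-- `𝒢` is a group of linear automorphisms of `N^1(Y/Z)` which preserves a lattice commensurable with
the lattice of the integral classes and the cone of the nef and effective classes, and which contains
a subgroup of finite index of the group generated by the pullbacks by the automorphisms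
`(v, g) ↦ (f v, (a_i(v) g_{ij})_{ij})` of `Y` over `Z` which map all components `B_l` of `Δ` to
themselves. The image of `Aut(Y/Z, Δ)` has these properties, and so have its subgroups of finite
index, and the image of `Aut(Y/Z)`. -/
def IsAutGroup {V W E : Type*} [NormedAddCommGroup V] [NormedSpace ℂ V]
    [NormedAddCommGroup W] [NormedSpace ℂ W] [NormedAddCommGroup E] [NormedSpace ℂ E]
    {Γ : AffGrp V} (Γ' : AffGrp W) (π : V →ₗ[ℂ] W) (j : E →ₗ[ℂ] V)
    {q s r : ℕ} {Y : FlagBundle Γ q s} (Δ : Bdry Y r) (𝒢 : LinGrp (NY Y j)) : Prop :=
  PresLatt (intY Y j) 𝒢 ∧ Preserves 𝒢 (nefY Y j ∩ effY Y j) ∧ 𝒢.relIndex (grp Δ Γ' π j) ≠ 0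

/-- Let `X = V / Γ` be a projective torus quotient, `X → Z = W / Γ'` a fibration, `Y → X` a bundle of
flags, and `Δ` an effective divisor with real coefficients on `Y` such that `K_Y + Δ` is numerically
trivial over `Z` and such that `(Y_v, Δ_v)` is klt for one `v ∈ V`. Here `E` is the kernel of `π`,
embedded by `j`. There is a finite set `S` of integral classes such that the cone `Π` spanned by `S`
consists of nef effective classes and is a fundamental domain for the action of `𝒢` on the cone
`A^e(Y/Z)` of the nef effective classes. -/
theorem result {V W E : Type*} [NormedAddCommGroup V] [NormedSpace ℂ V] [FiniteDimensional ℂ V]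
    [NormedAddCommGroup W] [NormedSpace ℂ W] [FiniteDimensional ℂ W]
    [NormedAddCommGroup E] [NormedSpace ℂ E] [FiniteDimensional ℂ E]
    (Γ : AffGrp V) (hΓ : IsTQ Γ)
    (hproj : ∃ (L : LineBundle Γ) (H : V → V → ℂ), IsChernForm L H ∧ IsPositiveForm H)
    (Γ' : AffGrp W) (π : V →ₗ[ℂ] W) (hπ : IsFib Γ Γ' π)
    (j : E →ₗ[ℂ] V) (hj : Function.Injective j) (hjr : LinearMap.range j = LinearMap.ker π)
    {q s r : ℕ} (Y : FlagBundle Γ q s) (Δ : Bdry Y r)
    (hklt : ∃ v, Δ.IsKltAt v) (hCY : IsCY Δ j)
    (𝒢 : LinGrp (NY Y j)) (h𝒢 : IsAutGroup Γ' π j Δ 𝒢) :
    ∃ S : Finset (NY Y j), ↑S ⊆ intY Y j ∧ cone S ⊆ nefY Y j ∩ effY Y j ∧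
      IsFundDomain 𝒢 (nefY Y j ∩ effY Y j) (cone S) := by
  obtain ⟨L, H, hc, hp⟩ := hproj
  obtain ⟨v, hv⟩ := hklt
  exact main (rel_of_emb hj hjr (isTQ_iff.1 hΓ) (isFib_iff.1 hπ) hc hp) hjr Δ hv hCY
    𝒢 h𝒢.1 h𝒢.2.1 h𝒢.2.2

end Pool.Agent.Results.MP_20d318_ag.FlagBundlePairs
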