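import Pool.Agent.Q57.FT.Top

/-!
# The nef cone of the toroidal models of covers of products of projective spaces

Let `F i` be a form of degree `d i` in `n i + 1` variables whose zero set in the projective
`n i`-space is a smooth hypersurface, and let `H i` be the cyclic hypersurface `w ^ (d i) = F i` in
the projective `(n i + 1)`-space. Let `K` be the function field of a quotient
`Y = (H 1 × ... × H r) / G`, where `G` is any group of diagonal automorphisms
`w i ↦ ζ i * w i`, `ζ i ^ (d i) = 1`. Equivalently, `K` is generated by the affine coordinates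
`x i j / x i 0` of the product of the projective `n i`-spaces and by roots `z j`,
`z j ^ (m j) = ∏ i, (F i (x i) / x i 0 ^ (d i)) ^ (a j i)`, where `m j` divides `a j i * d i`: the
abelian covers of the product of the projective spaces which are branched along the hypersurfaces
`F i = 0` of the factors. There is no condition on the dimensions and the degrees.

A prime divisor `P` over `Y` (a divisorial place of `K`) has the vector `multiplicities F d x P` of the
multiplicities `v i` of the hypersurfaces along `P`. The vectors `v ≠ 0` of nonnegative integers with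
`m j ∣ ∑ i, a j i * v i` for all `j` are the `Admissible` ones: the nonzero points, in the positive
orthant, of the lattice of the toroidal variety `Y`.

**The varieties.** The toroidal modifications `X` of `Y` are given by the subdivisions (fans) of the
positive orthant into rational polyhedral cones; `fan` is the set of the maximal cones, each given by
a finite set of admissible generators which span the space. The canonical divisor of `X` is
arbitrary; for any toroidal boundary `Δ` the pairs `(X, Δ)` with `K_X + Δ ≡ 0` are the log
Calabi-Yau pairs of the question (with `Z` a point). For example, let `Y i` be a cyclic cover of the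
projective `n i`-space of degree `e i` which is branched along `F i = 0`, with
`d i * (e i - 1) = (n i + 1) * e i`; then `K ~ 0` for `Y i`, and for the quotients `Y` of the product
of the `Y i` by groups of diagonal automorphisms which preserve the holomorphic volume form, and for
all crepant toroidal partial resolutions `X` of `Y`. They have many small modifications (flops).

**The divisors.** `D 1, ..., D p` are toroidal divisors on `X`: sums of multiples `β i t` of the
hyperplane classes of the factors and of the prime divisors of the boundary of `X`. The coefficient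
of (the pullback of) `D i` at a prime divisor `P` over `X` is
`coefficient F d x (c i) (β i) P = c i v + ∑ t, β i t * h t`, where `v` is the vector of the
multiplicities, and `h t` is minus the minimal order at `P` of the homogeneous coordinates of the
`t`-th factor; `D i` is `ℚ`-Cartier: `- c i v = ∑ k, u σ i k * v k` on the cone `σ`. One may take
divisors `D i` which generate all toroidal `ℚ`-Cartier divisors on `X`. If all `n i ≥ 3` then every
divisor on `X` is, up to `ℚ`-linear equivalence, toroidal (Lefschetz; this remark is not used and
not proved here).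

**The theorem.** The nef real combinations `∑ i, lam i * D i`, `lam` in `ℝ ^ p`, are a rational
polyhedral cone, which is given by the explicit finite set of linear inequalities `Inequalities`:
`d t * u σ t ≤ β t` and `∑ k, u σ k * s k ≥ - c s`, for all maximal cones `σ`, all factors `t` and
all generators `s` of the cones of the fan, where `u`, `β`, `c` belong to the combination. This cone
is generated by finitely many integral divisors `∑ i, h b i * D i` whose linear systems have no base
points. In particular all nef real combinations are semiample and effective. So (for toroidal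
divisors) the effective nef cone is the nef cone, it is rational polyhedral, and the nef cone
conjecture holds for it, with the finite group by which the automorphisms act on it.
-/

set_option autoImplicit false

open FF MvPolynomial Pool.Agent.W602.GT

namespace Pool.Agent.Results.MP_20d318_ag.NefConeOfToroidalModels

/-- The form `F` has no singular zeros: its partial derivatives have no common zero but `0`. -/
def Smooth {n : ℕ} (F : MvPolynomial (Fin (n + 1)) ℂ) : Prop :=
  ∀ x : Fin (n + 1) → ℂ, x ≠ 0 → ∃ l, eval x (pderiv l F) ≠ 0

/-- The affine coordinates of the product of the projective spaces. -/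
noncomputable def affine {r : ℕ} {n : Fin r → ℕ} {K : Type} [Field K]
    (x : ∀ i, Fin (n i + 1) → K) (b : (i : Fin r) × Fin (n i)) : K :=
  x b.1 b.2.succ / x b.1 0

section

variable {r R : ℕ}

/-- The multiplicities which satisfy the divisibility conditions. -/
def Admissible (m : Fin R → ℕ) (a : Fin R → Fin r → ℕ) (v : Fin r → ℕ) : Prop :=
  v ≠ 0 ∧ ∀ j, m j ∣ ∑ i, a j i * v i

/-- The vector `v` is in the cone which is generated by the vectors in `σ`. -/
def InCone (σ : Finset (Fin r → ℕ)) (v : Fin r → ℕ) : Prop :=
  ∃ w : (Fin r → ℕ) → ℚ, (∀ s, 0 ≤ w s) ∧ ∀ k, (v k : ℚ) = ∑ s ∈ σ, w s * s k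

/-- `fan` is a finite set of cones, each generated by a finite set of admissible vectors which span
the whole space, which cover all admissible vectors. -/
structure IsFan (m : Fin R → ℕ) (a : Fin R → Fin r → ℕ) (fan : Finset (Finset (Fin r → ℕ))) :
    Prop where
  adm : ∀ σ ∈ fan, ∀ s ∈ σ, Admissible m a s
  full : ∀ σ ∈ fan, ∀ f : Fin r → ℚ, ∃ q : (Fin r → ℕ) → ℚ, ∀ k, f k = ∑ s ∈ σ, q s * s k
  cover : ∀ v, Admissible m a v → ∃ σ ∈ fan, InCone σ v

variable {K : Type} [Field K] [Algebra ℂ K] {n : Fin r → ℕ}

/-- The minimal order at `P` of the homogeneous coordinates `y`. -/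
noncomputable def minimalOrder {n : ℕ} (y : Fin (n + 1) → K) (P : Place ℂ K) : ℤ :=
  Finset.univ.inf' Finset.univ_nonempty fun j => P.ord (y j)

/-- The multiplicities of the hypersurfaces `F i = 0` along the prime divisor `P`; the `x i j` are the
homogeneous coordinates of the `i`-th factor, which are divided by one of minimal order at `P`. -/
noncomputable def multiplicities (F : ∀ i, MvPolynomial (Fin (n i + 1)) ℂ) (d : Fin r → ℕ)
    (x : ∀ i, Fin (n i + 1) → K) (P : Place ℂ K) (i : Fin r) : ℕ :=
  (P.ord (aeval (x i) (F i)) - d i * minimalOrder (x i) P).toNat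

/-- The coefficient at the prime divisor `P` of the divisor with the function `c` of the
multiplicities and the degrees `β t`: it is `c v` plus `β t` times the coefficient at `P` of the
hyperplane class of the `t`-th factor, which is represented by the divisor with the coefficients
`- minimalOrder (x t) P` (its sections are the linear forms in the `x t j`). -/
noncomputable def coefficient (F : ∀ i, MvPolynomial (Fin (n i + 1)) ℂ) (d : Fin r → ℕ)
    (x : ∀ i, Fin (n i + 1) → K) (c : (Fin r → ℕ) → ℚ) (β : Fin r → ℤ) (P : Place ℂ K) : ℚ :=
  c (multiplicities F d x P) - ∑ t, (β t : ℚ) * minimalOrder (x t) P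

end

section sections

variable {K : Type} [Field K] [Algebra ℂ K] {p : ℕ} (N : ℕ) (δ : Fin p → Place ℂ K → ℚ)

/-- `f` is a section of `∑ i, μ i * D i + j * A`: its order at every prime divisor `P` (every
divisorial place `P` of `K`) is at least `j` times the order of one of the functions in `S`, minus
the coefficient `∑ i, μ i * δ i P` of `∑ i, μ i * D i`. Here `A` is the divisor which is generated by
the finite set `S` of functions; `A = 0` if `S = {1}`. -/
def IsSection (S : Finset K) (μ : Fin p → ℤ) (j : ℕ) (f : K) : Prop :=
  ∀ P : Place ℂ K, Divisorial N P → f = 0 ∨ ∃ s ∈ S, s ≠ 0 ∧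
    (j : ℚ) * P.ord s - ∑ i, (μ i : ℚ) * δ i P ≤ P.ord f

/-- The real combination `L = ∑ i, lam i * D i` is nef: there is a divisor `A` such that all
`M L + A`, `M ≥ 1`, are semiample in the following sense: there is `j ≥ 1` such that for every prime
divisor `P` there is an integral combination `∑ i, μ i * D i` with `|μ i - j * M * lam i| ≤ j` such
that `∑ i, μ i * D i + j * A` has a section of the minimal order at `P`. This holds if `L` is nef in
the usual sense and `A` is a sufficiently ample divisor on a projective variety `X` (then the
divisors `∑ i, μ i * D i + j * A` are ample, and base point free for a suitable multiple `j`). -/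
def Nef (lam : Fin p → ℝ) : Prop :=
  ∃ S : Finset K, (∃ s ∈ S, s ≠ 0) ∧ ∀ M : ℕ, 1 ≤ M → ∃ j : ℕ, 1 ≤ j ∧
    ∀ P : Place ℂ K, Divisorial N P → ∃ μ : Fin p → ℤ, (∀ i, |(μ i : ℝ) - j * M * lam i| ≤ j) ∧
      ∃ f : K, f ≠ 0 ∧ IsSection N δ S μ j f ∧ ∀ s ∈ S, s ≠ 0 →
        (P.ord f : ℚ) ≤ j * P.ord s - ∑ i, (μ i : ℚ) * δ i P

/-- The linear system of the integral combination `∑ i, μ i * D i` has no base points: it has for
every prime divisor `P` over `X` a section which does not vanish at `P`, that is, its order at `P` is
the minimal one. (If the linear system has a base point on `X` then all sections vanish at the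
exceptional divisor of its blowing up.) -/
def BasePointFree (μ : Fin p → ℤ) : Prop :=
  ∀ P : Place ℂ K, Divisorial N P → ∃ f : K, f ≠ 0 ∧ IsSection N δ {1} μ 0 f ∧
    (P.ord f : ℚ) ≤ - ∑ i, (μ i : ℚ) * δ i P

end sections

/-- The inequalities for the real combination `∑ i, lam i * D i`: for every maximal cone `σ` its
linear function `∑ i, lam i * u σ i` on `σ` has the coordinates `≤ (∑ i, lam i * β i t) / d t`, and
its values at the generators `s` of all cones are at least the values there of the support function
`- ∑ i, lam i * c i`. -/
def Inequalities {p r : ℕ} (fan : Finset (Finset (Fin r → ℕ))) (d : Fin r → ℕ)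
    (c : Fin p → (Fin r → ℕ) → ℚ) (β : Fin p → Fin r → ℤ)
    (u : Finset (Fin r → ℕ) → Fin p → Fin r → ℚ) (lam : Fin p → ℝ) : Prop :=
  ∀ σ ∈ fan, (∀ t, (d t : ℝ) * ∑ i, lam i * u σ i t ≤ ∑ i, lam i * β i t) ∧
    ∀ τ ∈ fan, ∀ s ∈ τ, - ∑ i, lam i * c i s ≤ ∑ k, (∑ i, lam i * u σ i k) * (s k : ℝ)

/-- **The nef cone.** Let `K` be the function field of an abelian cover `Y` of the product of the
projective `n i`-spaces which is branched along smooth hypersurfaces `F i = 0` of the factors, `X` the
toroidal modification of `Y` which is given by `fan`, and `D i`, `i < p`, toroidal `ℚ`-Cartier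
divisors on `X` with the degrees `β i t` and the coefficients `c i`. There are finitely many integral
combinations `∑ i, h b i * D i` which are base point free such that a real combination is nef if and
only if it satisfies the inequalities, if and only if it is a combination of these with
nonnegative real coefficients. -/
theorem result (r N R p : ℕ) (n d : Fin r → ℕ) (hr : 1 ≤ r) (hn : ∀ i, 1 ≤ n i)
    (hd : ∀ i, 1 ≤ d i) (hN : N = ∑ i, n i)
    (F : ∀ i, MvPolynomial (Fin (n i + 1)) ℂ) (hF : ∀ i, (F i).IsHomogeneous (d i))
    (hs : ∀ i, Smooth (F i)) (m : Fin R → ℕ) (hm : ∀ j, 1 ≤ m j) (a : Fin R → Fin r → ℕ)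
    (hdiv : ∀ j i, m j ∣ a j i * d i)
    (K : Type) [Field K] [Algebra ℂ K] (x : ∀ i, Fin (n i + 1) → K) (hx0 : ∀ i, x i 0 ≠ 0)
    (hbas : IsTranscendenceBasis ℂ (affine x)) (z : Fin R → K)
    (hz : ∀ j, z j ^ m j = ∏ i, (aeval (x i) (F i) / x i 0 ^ d i) ^ a j i)
    (hgen : IntermediateField.adjoin ℂ (Set.range (affine x) ∪ Set.range z) = ⊤)
    (fan : Finset (Finset (Fin r → ℕ))) (hfan : IsFan m a fan)
    (c : Fin p → (Fin r → ℕ) → ℚ) (hc0 : ∀ i, c i 0 = 0) (β : Fin p → Fin r → ℤ)
    (u : Finset (Fin r → ℕ) → Fin p → Fin r → ℚ)
    (hlin : ∀ σ ∈ fan, ∀ i v, Admissible m a v → InCone σ v → - c i v = ∑ k, u σ i k * v k)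
    (δ : Fin p → Place ℂ K → ℚ) (hδ : ∀ i P, δ i P = coefficient F d x (c i) (β i) P) :
    ∃ (N0 : ℕ) (h : Fin N0 → Fin p → ℤ), (∀ b, BasePointFree N δ (h b)) ∧
      ∀ lam : Fin p → ℝ, (Nef N δ lam ↔ Inequalities fan d c β u lam) ∧
        (Nef N δ lam ↔ ∃ t : Fin N0 → ℝ, (∀ b, 0 ≤ t b) ∧ ∀ i, lam i = ∑ b, t b * h b i) := by
  obtain ⟨N0, h, h1, h2⟩ := Pool.Agent.Q57.FT.main_nefcone (N := N) hr hn hN hd hF hs hx0 hbas hm
    hdiv hz hgen (S := fan) ⟨hfan.adm, hfan.full, hfan.cover⟩ hc0 (u := u) hlin (β := β) hδ
  refine ⟨N0, h, fun b P hP => ?_, h2⟩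
  obtain ⟨f, hf0, hf, hle⟩ := h1 b P hP
  refine ⟨f, hf0, fun P hP => (hf P hP).imp id fun h5 => ⟨1, by simp, one_ne_zero, ?_⟩, hle⟩
  rw [P.ord_one]
  push_cast at h5 ⊢
  linarith

end Pool.Agent.Results.MP_20d318_ag.NefConeOfToroidalModels
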