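import Pool.Agent.Q47.CY.Br

/-!
# Relatively nef and effective classes of klt Calabi–Yau pairs on toric bundles

Let `X = V / Γ` be a projective quotient of a complex torus of any dimension by any finite group
(reflections are allowed), `X → Z = W / Γ'` a fibration, given by a linear map `π : V → W`, and let
`Y → X` be a toric bundle: a locally trivial bundle whose fibre is a smooth projective toric variety,
twisted by arbitrary line bundles `c_i` on `X`. Let `Δ` be any effective divisor with real
coefficients on `Y` such that `K_Y + Δ` is numerically trivial over `Z` and such that for one fibre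
`Y_v` of `Y → X` the pair `(Y_v, Δ_v)` is klt.

The theorem says that the cone `A^e(Y/Z)` of the relatively nef classes in the cone spanned by the
classes of line bundles with sections is the convex cone `A^+(Y/Z)` spanned by the classes of the line
bundles which are nef over `Z`. So each rational class which is nef over `Z` is the class of an
effective divisor with rational coefficients, and each class in `A^e(Y/Z)` is a combination of
rational nef classes. The two cones are those in the two usual forms of the cone conjecture.

The pair `(Y, Δ)` is needed: if `Z` is a point, the nef cone of `X` is round and `Y` is the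
projectivisation of `O ⊕ M` with `M` of indefinite Chern form `h`, then the classes `D + x` such that
`x` and `x + h` are nef have irrational extremal rays, and these classes are big. For a klt
Calabi–Yau pair the forms `∑_i u_{ik} c_1(c_i)` vanish in the directions which are parallel to the
kernel of `π` and to all mirrors of the reflections in `Γ`, so that they only matter on finitely many
vectors, one for each reflection.

`LinEquiv` and `IsSection` are defined in `Pool.Agent.Q47.TB.Defs`; `Bundle`, `Bdry` and
`Bdry.IsKltAt` in `Pool.Agent.Q47.CY.Def`; `IsTQ`, `IsFib`, `NY`, `D`, `pb`, `hull`, `intY`, `effY`,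
`nefY` and `IsCY` in `Pool.Agent.Q47.CY.St`; `LineBundle` in `Pool.Agent.W594.SYZ.Defs2`;
`IsChernForm` and `IsPositiveForm` in `Pool.Agent.W594.SYZ.TQDefs`; `N1`, `form` and `nefCone` in
`Pool.Agent.Y167.Stm`.
-/

set_option autoImplicit false

namespace Pool.Agent.Results.MP_20d318_ag.RationalNefClasses

open Pool.Agent.W594.SYZ2 Pool.Agent.TH735.AQ
open Pool.Agent.Y167 (AffGrp rel_of_emb)
open Q47.CY (Bundle Bdry)
open Q47.CP

/-- Let `X = V / Γ` be a projective torus quotient, `X → Z = W / Γ'` a fibration, `Y → X` a toric
bundle, and `Δ` an effective divisor with real coefficients on `Y` such that `K_Y + Δ` is numerically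
trivial over `Z` and such that `(Y_v, Δ_v)` is klt for one `v ∈ V`. Here `E` is the kernel of `π`,
embedded by `j`. Then the cone `A^e(Y/Z)` of the nef effective classes is the convex cone spanned by
the classes of the line bundles on `Y` which are nef over `Z`. -/
theorem result {V W E : Type*} [NormedAddCommGroup V] [NormedSpace ℂ V] [FiniteDimensional ℂ V]
    [NormedAddCommGroup W] [NormedSpace ℂ W] [FiniteDimensional ℂ W]
    [NormedAddCommGroup E] [NormedSpace ℂ E] [FiniteDimensional ℂ E]
    (Γ : AffGrp V) (hΓ : IsTQ Γ)
    (hproj : ∃ (L : LineBundle Γ) (H : V → V → ℂ), IsChernForm L H ∧ IsPositiveForm H)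
    (Γ' : AffGrp W) (π : V →ₗ[ℂ] W) (hπ : IsFib Γ Γ' π)
    (j : E →ₗ[ℂ] V) (hj : Function.Injective j) (hjr : LinearMap.range j = LinearMap.ker π)
    {ι : Type*} [Fintype ι] {n r : ℕ} (Y : Bundle Γ ι n) (Δ : Bdry Y r)
    (hklt : ∃ v, Δ.IsKltAt v) (hCY : IsCY Δ j) :
    nefY Y j ∩ effY Y j = hull (intY Y j ∩ nefY Y j) := by
  obtain ⟨L, H, hc, hp⟩ := hproj
  obtain ⟨v, hv⟩ := hklt
  exact plus (rel_of_emb hj hjr (isTQ_iff.1 hΓ) (isFib_iff.1 hπ) hc hp) Δ hv hCY
    ⟨∅, Y.fan.empty_mem⟩ nefY_eq

end Pool.Agent.Results.MP_20d318_ag.RationalNefClasses
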