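import Pool.Agent.Q47.CY.Br

/-!
# The relative nef cone conjecture for klt Calabi–Yau pairs on toric bundles over torus quotients

Let `X = V / Γ` be a projective quotient of a complex torus of any dimension by any finite group
(reflections are allowed, so that `K_X` need not be trivial), let `X → Z = W / Γ'` be a fibration, and
let `Y → X` be a toric bundle: a locally trivial bundle whose fibre is a smooth projective toric
variety, twisted by arbitrary line bundles `c_i` on `X` (for example the projectivisation of a direct
sum of line bundles). Let `Δ = ∑ δ_j B_j` be any effective divisor with real coefficients on `Y`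
such that `K_Y + Δ` is numerically trivial over `Z` and such that for one fibre `Y_v` of `Y → X` the
pair `(Y_v, Δ_v)` is klt (this holds if `(Y, Δ)` is klt). In general `Δ` is neither torus invariant
nor a pullback.

The theorem says that the cone `A^e(Y/Z)` of the nef and effective classes has a rational polyhedral
fundamental domain for the action of `Aut(Y/Z, Δ)`, and for the action of each subgroup of finite
index.

The proof. (a) Let `F_j` be the equation of `B_j` in the Cox coordinates. Since one fibre is klt, for
each weight `w ≥ 0`, `w ≠ 0`, on a cone of the fan there are monomials `α_j` in `F_j` with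
`∑ δ_j w(α_j) < ∑ w_i`. The coefficient of each monomial is a section of a line bundle on `X`, so
that its Chern form is semidefinite; `K_Y + Δ ≡ 0` and the convexity of the set of exponents show
that these forms, and those of all line bundles `∏ c_i ^ u_{ik}`, vanish in all directions of `E`
which are parallel to the mirrors of the reflections in `Γ`; and the differences of the exponents
generate a subgroup of finite index in `ℤ^n`, so that the factors of these line bundles on the lattice
vectors in these directions are roots of unity, because the sections are invariant by Liouville's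
theorem.
(b) Reduction theory (Voronoi's theory for an order in a real algebra with positive involution) covers
the ample classes of `X/Z` by the translates of a cone spanned by finitely many nef integral classes,
under units which are congruent to `1`. Such a unit extends to an affine automorphism `f` of `V` which
normalises `Γ` and moves all points in directions parallel to all mirrors; by (a) there are functions
`a_i` such that `(v, x) ↦ (f v, (a_i(v) x_i)_i)` is an automorphism of the pair `(Y, Δ)` over `Z`.
(c) A class in the interior of `Nef(Y/Z)` is `∑ β_i D_i + x`, `β_i ≥ 0`, with `x` ample on `X/Z`. The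
automorphisms in (b) fix all `D_i`. So one only has to show that the nef classes
`∑ β_i D_i + x` with `β_i ≥ 0` and `x` in a rational polyhedral cone form a rational polyhedral cone.
Nefness means that `x` remains nef after twists by certain combinations of the forms
`∑_i u_{ik} c_1(c_i)`. These forms vanish in the directions of the mirrors, so this can be tested on
finitely many vectors, one for each reflection. Finally a Dirichlet domain is a fundamental domain.

`IsSmoothFan`, `LinEquiv` and `IsSection` are defined in `Pool.Agent.Q47.TB.Defs`; `IsFibreAmple` in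
`Pool.Agent.Q47.AL.Def`; `IsLogCanonical` in `Pool.Agent.Q47.TR.Stm`; `Bundle`, `Bdry`,
`Bdry.IsKltAt` and `Bdry.IsFixedBy` in `Pool.Agent.Q47.CY.Def`; `IsTQ`, `IsFib`, `Over`, `NY`, `D`,
`pb`, `intY`, `effY`, `nefY`, `IsAutY`, `IsPullbackY`, `IsCY`, `grp` and `PresLatt` in
`Pool.Agent.Q47.CY.St`; `LineBundle` in `Pool.Agent.W594.SYZ.Defs2`; `IsChernForm` and
`IsPositiveForm` in `Pool.Agent.W594.SYZ.TQDefs`; `IsRamification` and `IsLogPluricanonical` in
`Pool.Agent.TH735.AQ.MirDefs`; `AffGrp`, `IsClass` and `Normalizes` in `Pool.Agent.Y167.Defs`;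
`LinGrp`, `Preserves`, `IsFundDomain`, `N1`, `form` and `nefCone` in `Pool.Agent.Y167.Stm`; `cone` in
`Pool.Agent.Y167.ConeDef`.
-/

set_option autoImplicit false

namespace Pool.Agent.Results.MP_20d318_ag.ToricBundlePairs

open Pool.Agent.W594.SYZ2 Pool.Agent.TH735.AQ
open Pool.Agent.Y167 (AffGrp cone rel_of_emb)
open Pool.Agent.Y167.CC (LinGrp Preserves IsFundDomain)
open Q47.CY (Bundle Bdry)
open Q47.CP

/-- `𝒢` is a group of linear automorphisms of `N^1(Y/Z)` which preserves a lattice commensurable with
the lattice of the integral classes and the cone of the nef and effective classes, and which contains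
a subgroup of finite index of the group generated by the pullbacks by the automorphisms
`(v, x) ↦ (f v, (a_i(v) x_i)_i)` of `Y` over `Z` which map all components `B_j` of `Δ` to themselves.
The image of `Aut(Y/Z, Δ)` has these properties, and so have its subgroups of finite index, and the
image of `Aut(Y/Z)`. -/
def IsAutGroup {V W E : Type*} [NormedAddCommGroup V] [NormedSpace ℂ V]
    [NormedAddCommGroup W] [NormedSpace ℂ W] [NormedAddCommGroup E] [NormedSpace ℂ E]
    {Γ : AffGrp V} (Γ' : AffGrp W) (π : V →ₗ[ℂ] W) (j : E →ₗ[ℂ] V) {ι : Type*} [Fintype ι]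
    {n r : ℕ} {Y : Bundle Γ ι n} (Δ : Bdry Y r) (𝒢 : LinGrp (NY Y j)) : Prop :=
  PresLatt (intY Y j) 𝒢 ∧ Preserves 𝒢 (nefY Y j ∩ effY Y j) ∧ 𝒢.relIndex (grp Δ Γ' π j) ≠ 0

/-- Let `X = V / Γ` be a projective torus quotient, `X → Z = W / Γ'` a fibration, `Y → X` a toric
bundle, and `Δ` an effective divisor with real coefficients on `Y` such that `K_Y + Δ` is numerically
trivial over `Z` and such that `(Y_v, Δ_v)` is klt for one `v ∈ V`. Here `E` is the kernel of `π`,
embedded by `j`. There is a finite set `S` of integral classes such that the cone `Π` spanned by `S`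
consists of nef effective classes and is a fundamental domain for the action of `𝒢` on the cone
`A^e(Y/Z)` of the nef effective classes. -/
theorem result {V W E : Type*} [NormedAddCommGroup V] [NormedSpace ℂ V] [FiniteDimensional ℂ V]
    [NormedAddCommGroup W] [NormedSpace ℂ W] [FiniteDimensional ℂ W]
    [NormedAddCommGroup E] [NormedSpace ℂ E] [FiniteDimensional ℂ E]
    (Γ : AffGrp V) (hΓ : IsTQ Γ)
    (hproj : ∃ (L : LineBundle Γ) (H : V → V → ℂ), IsChernForm L H ∧ IsPositiveForm H)
    (Γ' : AffGrp W) (π : V →ₗ[ℂ] W) (hπ : IsFib Γ Γ' π)
    (j : E →ₗ[ℂ] V) (hj : Function.Injective j) (hjr : LinearMap.range j = LinearMap.ker π)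
    {ι : Type*} [Fintype ι] {n r : ℕ} (Y : Bundle Γ ι n) (Δ : Bdry Y r)
    (hklt : ∃ v, Δ.IsKltAt v) (hCY : IsCY Δ j)
    (𝒢 : LinGrp (NY Y j)) (h𝒢 : IsAutGroup Γ' π j Δ 𝒢) :
    ∃ S : Finset (NY Y j), ↑S ⊆ intY Y j ∧ cone S ⊆ nefY Y j ∩ effY Y j ∧
      IsFundDomain 𝒢 (nefY Y j ∩ effY Y j) (cone S) := by
  obtain ⟨L, H, hc, hp⟩ := hproj
  obtain ⟨v, hv⟩ := hklt
  exact main (rel_of_emb hj hjr (isTQ_iff.1 hΓ) (isFib_iff.1 hπ) hc hp) hjr Δ hv hCY subset_rfl ⟨∅, Y.fan.empty_mem⟩
    nefY_eq 𝒢 h𝒢.1 h𝒢.2.1 h𝒢.2.2

end Pool.Agent.Results.MP_20d318_ag.ToricBundlePairs
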